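import Pool.Agent.LPW.StmtsE

/-! SLC: slicing a box by squares in the plane of two coordinates. -/

set_option autoImplicit false

namespace Pool.Agent.LPW.H72

open Pool.Agent.LPW

theorem count_aux {κ : Type} [Fintype κ] [DecidableEq κ] (U : Finset κ) (hU : U.card = 2)
    (N : κ → ℕ) (M : ℕ) (hMN : ∀ x, M ≤ N x) :
    M ^ 2 * ∏ x, (if x ∈ U then (N x - 1) / M + 1 else N x) ≤ 4 * ∏ x, N x := by
  have h1 : ∏ x : κ, (if x ∈ U then M else 1) = M ^ 2 := by
    rw [Finset.prod_ite_mem, Finset.univ_inter, Finset.prod_const, hU]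
  have h2 : ∏ x : κ, (if x ∈ U then 2 else 1) = 4 := by
    rw [Finset.prod_ite_mem, Finset.univ_inter, Finset.prod_const, hU]
    norm_num
  rw [← h1, ← h2, ← Finset.prod_mul_distrib, ← Finset.prod_mul_distrib]
  refine Finset.prod_le_prod' fun x _ => ?_
  by_cases hx : x ∈ U
  · rw [if_pos hx, if_pos hx, if_pos hx]
    have h3 : M * ((N x - 1) / M) ≤ N x - 1 := Nat.mul_div_le _ _
    have h4 := hMN x
    rw [mul_add, mul_one]
    omega
  · rw [if_neg hx, if_neg hx, if_neg hx]

theorem slc : SlcStmt := by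
  classical
  intro κ _ _ q hq S lo N M hM hMN b hb hS
  have hne : q 0 ≠ q 1 := fun h => by
    have h1 := hq h
    exact absurd h1 (by decide)
  let U : Finset κ := {q 0, q 1}
  have hUc : U.card = 2 := Finset.card_pair hne
  have hqU : ∀ i, q i ∈ U := by
    intro i
    fin_cases i
    · exact Finset.mem_insert_self _ _
    · exact Finset.mem_insert_of_mem (Finset.mem_singleton_self _)
  have hMZ : (0 : ℤ) < M := by exact_mod_cast hM
  let box : Finset (κ → ℤ) := Fintype.piFinset fun x => Finset.Ico (lo x) (lo x + N x)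
  let T : Finset (κ → ℤ) := box.filter (fun a => a ∈ S)
  have hT : {a : κ → ℤ | (∀ x, lo x ≤ a x ∧ a x < lo x + N x) ∧ a ∈ S} = (T : Set (κ → ℤ)) := by
    ext a
    simp [T, box, Fintype.mem_piFinset]
  have hTm : ∀ a ∈ T, (∀ x, lo x ≤ a x ∧ a x < lo x + N x) ∧ a ∈ S := by
    intro a ha
    have h1 : a ∈ (T : Set (κ → ℤ)) := ha
    rw [← hT] at h1
    exact h1
  rw [hT, Set.ncard_coe_finset]
  let key : (κ → ℤ) → (κ → ℤ) := fun a x => if x ∈ U then (a x - lo x) / M else a x
  let keys : Finset (κ → ℤ) := Fintype.piFinset fun x =>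
    if x ∈ U then Finset.Ico 0 ((((N x - 1) / M + 1 : ℕ)) : ℤ) else
      Finset.Ico (lo x) (lo x + N x)
  have hmaps : ∀ a ∈ T, key a ∈ keys := by
    intro a ha
    have ha' := (hTm a ha).1
    rw [Fintype.mem_piFinset]
    intro x
    by_cases hx : x ∈ U
    · have h1 : key a x = (a x - lo x) / M := if_pos hx
      rw [if_pos hx, h1, Finset.mem_Ico]
      have h2 := ha' x
      refine ⟨Int.ediv_nonneg (by omega) hMZ.le, ?_⟩
      have h3 : (a x - lo x) / (M : ℤ) ≤ ((N x - 1 : ℕ) : ℤ) / (M : ℤ) :=
        Int.ediv_le_ediv hMZ (by have := hMN x; omega)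
      push_cast at h3 ⊢
      omega
    · have h1 : key a x = a x := if_neg hx
      rw [if_neg hx, h1, Finset.mem_Ico]
      exact ha' x
  have hfib : ∀ k ∈ keys, ((T.filter (fun a => key a = k)).card : ℝ) ≤ b := by
    intro k _
    let a₀ : κ → ℤ := fun x => if x ∈ U then 0 else k x
    let l : Fin 2 → ℤ := fun i => lo (q i) + M * k (q i)
    refine le_trans ?_ (hS a₀ l)
    have hfin : {P : Fin 2 → ℤ | (∀ i, l i ≤ P i ∧ P i < l i + M) ∧ shg q a₀ P ∈ S}.Finite := by
      refine (Finset.finite_toSet (Fintype.piFinset fun i => Finset.Ico (l i) (l i + M))).subset ?_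
      intro P hP
      rw [Finset.mem_coe, Fintype.mem_piFinset]
      intro i
      rw [Finset.mem_Ico]
      exact hP.1 i
    have hval : ∀ a, key a = k → ∀ x, x ∉ U → a x = k x := by
      intro a ha x hx
      rw [← ha]
      exact (if_neg hx).symm
    rw [← Set.ncard_coe_finset]
    have hle := Set.ncard_le_ncard_of_injOn (s := ((T.filter (fun a => key a = k) :
        Finset (κ → ℤ)) : Set (κ → ℤ))) (fun a : κ → ℤ => fun i : Fin 2 => a (q i)) ?_ ?_ hfin
    · exact_mod_cast hle
    · intro a ha
      rw [Finset.mem_coe, Finset.mem_filter] at ha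
      obtain ⟨haT, hak⟩ := ha
      refine ⟨fun i => ?_, ?_⟩
      · have h1 : k (q i) = (a (q i) - lo (q i)) / M := by
          rw [← hak]; exact if_pos (hqU i)
        have h2 := Int.mul_ediv_add_emod (a (q i) - lo (q i)) (M : ℤ)
        have h3 := Int.emod_nonneg (a (q i) - lo (q i)) hMZ.ne'
        have h4 := Int.emod_lt_of_pos (a (q i) - lo (q i)) hMZ
        rw [← h1] at h2
        show lo (q i) + M * k (q i) ≤ a (q i) ∧ a (q i) < lo (q i) + M * k (q i) + M
        constructor <;> linarith
      · have h1 : shg q a₀ (fun i => a (q i)) = a := by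
          funext x
          show a₀ x + ∑ k, (if x = q k then a (q k) else 0) = a x
          rw [Fin.sum_univ_two]
          by_cases hx : x ∈ U
          · have h2 : a₀ x = 0 := if_pos hx
            rw [h2]
            rcases Finset.mem_insert.1 hx with h | h
            · subst h
              rw [if_pos rfl, if_neg hne, zero_add, add_zero]
            · rw [Finset.mem_singleton] at h
              subst h
              rw [if_neg (Ne.symm hne), if_pos rfl, zero_add, zero_add]
          · have h2 : a₀ x = k x := if_neg hx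
            have h3 : x ≠ q 0 := fun h => hx (h ▸ hqU 0)
            have h4 : x ≠ q 1 := fun h => hx (h ▸ hqU 1)
            rw [h2, if_neg h3, if_neg h4, hval a hak x hx, add_zero, add_zero]
        rw [h1]
        exact (hTm a haT).2
    · intro a ha a' ha' haa
      rw [Finset.mem_coe, Finset.mem_filter] at ha ha'
      funext x
      by_cases hx : x ∈ U
      · rcases Finset.mem_insert.1 hx with h | h
        · rw [h]; exact congrFun haa 0
        · rw [Finset.mem_singleton] at h
          rw [h]; exact congrFun haa 1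
      · rw [hval a ha.2 x hx, hval a' ha'.2 x hx]
  have hcard : (T.card : ℝ) ≤ keys.card * b := by
    have h1 : T.card = ∑ k ∈ keys, (T.filter (fun a => key a = k)).card :=
      Finset.card_eq_sum_card_fiberwise hmaps
    rw [h1, Nat.cast_sum]
    calc ∑ k ∈ keys, ((T.filter (fun a => key a = k)).card : ℝ) ≤ ∑ _k ∈ keys, b :=
          Finset.sum_le_sum hfib
      _ = keys.card * b := by rw [Finset.sum_const, nsmul_eq_mul]
  have hkeys : keys.card = ∏ x, (if x ∈ U then (N x - 1) / M + 1 else N x) := by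
    rw [Fintype.card_piFinset]
    refine Finset.prod_congr rfl fun x _ => ?_
    by_cases hx : x ∈ U
    · rw [if_pos hx, if_pos hx, Int.card_Ico, sub_zero, Int.toNat_natCast]
    · rw [if_neg hx, if_neg hx, Int.card_Ico]
      omega
  have hcount := count_aux U hUc N M hMN
  rw [← hkeys] at hcount
  have hcountR : (M : ℝ) ^ 2 * (keys.card : ℝ) ≤ 4 * ∏ x, (N x : ℝ) := by exact_mod_cast hcount
  calc (M : ℝ) ^ 2 * (T.card : ℝ) ≤ (M : ℝ) ^ 2 * (keys.card * b) := by gcongr
    _ = ((M : ℝ) ^ 2 * keys.card) * b := by ring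
    _ ≤ (4 * ∏ x, (N x : ℝ)) * b := mul_le_mul_of_nonneg_right hcountR hb
    _ = 4 * b * ∏ x, (N x : ℝ) := by ring

end Pool.Agent.LPW.H72
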